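import Mathlib

set_option autoImplicit false

namespace Pool.Agent.Results.MP_7d4bc7_co.Cut

open Matrix

def IsCode {n : ℕ} (H : SimpleGraph (Fin n)) (C : Set (SimpleGraph (Fin n))) : Prop :=
  (∀ G ∈ C, G ≤ H) ∧ ∀ G ∈ C, ∀ G' ∈ C, G ≠ G' → (symmDiff G G').Connected

def adj (i j : Fin 10) : Prop :=
  i ≠ j ∧ ((i.val / 5 = j.val / 5 ∧ i.val % 5 + j.val % 5 ≠ 1) ∨
    (i.val % 5 = j.val % 5 ∧ i.val % 5 < 2))

instance : DecidableRel adj := fun i j => by unfold adj; infer_instance

def HH : SimpleGraph (Fin 10) := ⟨adj, ⟨by decide⟩, ⟨by decide⟩⟩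

instance : DecidableRel HH.Adj := inferInstanceAs (DecidableRel adj)

theorem result : ∃ (n d : ℕ) (H : SimpleGraph (Fin n)) (_ : DecidableRel H.Adj), 4 ≤ d ∧ 0 < n ∧
    H.IsRegularOfDegree d ∧
    (∀ (μ : ℝ) (x : Fin n → ℝ), H.adjMatrix ℝ *ᵥ x = μ • x →
      (∃ c, x = fun _ => c) ∨ |μ| ≤ 2 * √(d - 1)) ∧
    ∀ C, IsCode H C → C.ncard < 2 ^ d := by
  refine ⟨10, 4, HH, inferInstance, le_rfl, by norm_num, fun v => by revert v; decide,
    fun μ x h => ?_, fun C ⟨h1, h2⟩ => ?_⟩
  · refine or_iff_not_imp_right.mpr fun hm => ?_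
    have h3 : 12 < μ ^ 2 := by
      by_contra hh
      refine hm (Real.abs_le_sqrt (not_lt.mp hh) |>.trans (le_of_eq ?_))
      rw [show (12 : ℝ) = 2 ^ 2 * ((4 : ℕ) - 1) by norm_num, Real.sqrt_mul (by norm_num),
        Real.sqrt_sq (by norm_num)]
    have e : ∀ i a b c d : Fin 10, HH.neighborFinset i = {a, b, c, d} → [a, b, c, d].Nodup →
        x a + x b + x c + x d = μ * x i := by
      intro i a b c d h1 h2
      have := congrFun h i
      rw [SimpleGraph.adjMatrix_mulVec_apply, h1] at this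
      simp only [List.nodup_cons, List.mem_cons, not_or, List.not_mem_nil] at h2
      rw [Finset.sum_insert (by simp [h2]), Finset.sum_insert (by simp [h2]),
        Finset.sum_pair h2.2.2.1.1] at this
      simpa [add_assoc] using this
    have e0 := e 0 2 3 4 5 (by decide) (by decide)
    have e1 := e 1 2 3 4 6 (by decide) (by decide)
    have e2 := e 2 0 1 3 4 (by decide) (by decide)
    have e3 := e 3 0 1 2 4 (by decide) (by decide)
    have e4 := e 4 0 1 2 3 (by decide) (by decide)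
    have e5 := e 5 7 8 9 0 (by decide) (by decide)
    have e6 := e 6 7 8 9 1 (by decide) (by decide)
    have e7 := e 7 5 6 8 9 (by decide) (by decide)
    have e8 := e 8 5 6 7 9 (by decide) (by decide)
    have e9 := e 9 5 6 7 8 (by decide) (by decide)
    have p : μ + 1 ≠ 0 := fun z => by nlinarith
    have q : μ - 1 ≠ 0 := fun z => by nlinarith
    have r : μ ^ 2 - μ - 8 ≠ 0 := fun z => by nlinarith
    have a1 : x 2 = x 3 := mul_left_cancel₀ p (by linarith)
    have a2 : x 3 = x 4 := mul_left_cancel₀ p (by linarith)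
    have a3 : x 7 = x 8 := mul_left_cancel₀ p (by linarith)
    have a4 : x 8 = x 9 := mul_left_cancel₀ p (by linarith)
    have a5 : x 0 + x 5 = x 1 + x 6 := mul_left_cancel₀ q (by linarith)
    have a6 : x 0 + x 6 = x 1 + x 5 := mul_left_cancel₀ p (by linarith)
    have a7 : x 0 = x 1 := by linarith
    have a8 : x 5 = x 6 := by linarith
    have b1 : (μ + 1) * (x 0 - x 5) = 3 * (x 2 - x 7) := by linarith
    have b2 : (μ - 2) * (x 2 - x 7) = 2 * (x 0 - x 5) := by linarith
    have a9 : x 0 = x 5 := mul_left_cancel₀ r (by linear_combination (μ - 2) * b1 + 3 * b2)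
    have b3 : x 2 = x 7 := by rw [a9] at b1; linarith
    have b4 : x 0 = x 2 := mul_left_cancel₀ p (by linarith)
    refine ⟨x 0, funext fun i => ?_⟩
    fin_cases i <;> simp <;> linarith
  · have : Set.InjOn (fun G : SimpleGraph (Fin 10) => (G.Adj 0 5, G.Adj 1 6)) C := by
      intro G hG G' hG' e
      by_contra hne
      obtain ⟨e1, e2⟩ := Prod.mk.inj e
      have k : ∀ i j : Fin 10, (symmDiff G G').Adj i j → i.val / 5 = j.val / 5 := by
        intro i j h
        have h4 : adj i j := (symmDiff_le_sup.trans (sup_le (h1 G hG) (h1 G' hG'))) h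
        have h5 : ∀ i j : Fin 10, adj i j → i.val / 5 = j.val / 5 ∨ (i = 0 ∧ j = 5) ∨
          (i = 5 ∧ j = 0) ∨ (i = 1 ∧ j = 6) ∨ (i = 6 ∧ j = 1) := by decide
        rcases h5 i j h4 with a | ⟨rfl, rfl⟩ | ⟨rfl, rfl⟩ | ⟨rfl, rfl⟩ | ⟨rfl, rfl⟩
        · exact a
        all_goals simp [symmDiff_def, e1, e2, G.adj_comm 5, G'.adj_comm 5, G.adj_comm 6,
          G'.adj_comm 6] at h
      obtain ⟨w⟩ := (h2 G hG G' hG' hne).preconnected 0 5
      have k2 : ∀ i j : Fin 10, (symmDiff G G').Walk i j → i.val / 5 = j.val / 5 := by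
        intro i j w
        induction w with
        | nil => rfl
        | cons a _ ih => exact (k _ _ a).trans ih
      exact absurd (k2 _ _ w) (by decide)
    have h6 := Set.ncard_le_ncard_of_injOn _ (fun G _ => Set.mem_univ _) this
    rw [Set.ncard_univ] at h6
    simp at h6
    omega

end Pool.Agent.Results.MP_7d4bc7_co.Cut
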